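import Pool.Agent.X258.LLV.Cells

/-!
# MP_785f4e_co: survival number versus the unrestricted Voronoi count

The graph `LG` is the Diestel-Leader graph `DL(2,2)`, a Cayley graph of the lamplighter group: a
vertex is a finite set of lamps that are on (lamps are indexed by `ℤ`) together with a position in
`ℤ`; a step moves the position by one and may change the lamp passed. It is infinite, connected,
locally finite and vertex-transitive. Its survival number is at most `6`, while every finite set `T`
of vertices with `I(T)` infinite Voronoi cells satisfies `|T| ≤ I(T) + I(T)^3`, so the unrestricted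
count is infinite. So the question has a negative answer.
-/

namespace Pool.Agent.Results.MP_785f4e_co.LamplighterVoronoi

open Finset Filter Topology Pool.Agent.X258.LLV

variable {V : Type*}

/-- The Voronoi cell `C(v,T)`. -/
def cell (G : SimpleGraph V) (T : Finset V) (v : V) : Set V :=
  {u | ∀ w ∈ T, G.dist u v ≤ G.dist u w}

open Classical in
/-- `I(T)`, the number of members of `T` with an infinite Voronoi cell. -/
noncomputable def infCount (G : SimpleGraph V) (T : Finset V) : ℕ :=
  (T.filter fun v => (cell G T v).Infinite).card

/-- `𝒯(d,n)`: the finite sets with at least `n` elements whose distinct elements are pairwise at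
distance greater than `d`. -/
def Sep (G : SimpleGraph V) (d n : ℕ) : Set (Finset V) :=
  {T | n ≤ T.card ∧ ∀ v ∈ T, ∀ w ∈ T, v ≠ w → d < G.dist v w}

/-- The survival number `s(G)`. -/
noncomputable def survival (G : SimpleGraph V) : ℕ∞ :=
  ⨆ n ∈ {n : ℕ | 1 ≤ n ∧ ∃ d : ℕ, ∀ T ∈ Sep G d n, n ≤ infCount G T}, (n : ℕ∞)

/-- The minimum of `I(T)` over the sets `T` with exactly `n` elements. -/
noncomputable def minCount (G : SimpleGraph V) (n : ℕ) : ℕ :=
  sInf {k | ∃ T : Finset V, T.card = n ∧ infCount G T = k}

/-- `t(G) = t`: the minima of `I(T)` over the `n`-element sets converge to `t` as `n → ∞`. -/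
def UnrestrictedCount (G : SimpleGraph V) (t : ℕ∞) : Prop :=
  Tendsto (fun n => (minCount G n : ℕ∞)) atTop (𝓝 t)

/-- `G` is an infinite, connected, locally finite, vertex-transitive graph. -/
def Admissible (G : SimpleGraph V) : Prop :=
  Infinite V ∧ G.Connected ∧ (∀ v, (G.neighborSet v).Finite) ∧ ∀ u v, ∃ φ : G ≃g G, φ u = v

theorem cell_eq (T : Finset Vtx) (v : Vtx) :
    cell LG T v = {u | ∀ w ∈ T, D u v ≤ D u w} := by
  ext u
  simp only [cell, Set.mem_ofPred_eq]
  refine forall₂_congr fun w _ => ?_
  rw [← dist_eq, ← dist_eq, Nat.cast_le]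

theorem infinite_vtx : Infinite Vtx := by
  have : Function.Injective (fun q : ℤ => ((∅, q) : Vtx)) := by
    intro a b h
    simpa using h
  exact Infinite.of_injective _ this

theorem admissible : Admissible LG := ⟨infinite_vtx, connected, locallyFinite, transitive⟩

theorem card_le (T : Finset Vtx) : T.card ≤ infCount LG T + infCount LG T ^ 3 := by
  classical
  have := count T (T.filter fun v => (cell LG T v).Infinite) (filter_subset _ _) (by
    intro v hv hvE
    rw [← cell_eq]
    by_contra h
    exact hvE (mem_filter.2 ⟨hv, h⟩))
  have e : infCount LG T = (T.filter fun v => (cell LG T v).Infinite).card := by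
    unfold infCount
    congr
  rw [e]
  exact this

theorem P_inj (N : ℤ) (hN : 3 ≤ N) : Function.Injective (P N) := by
  intro c c' h
  by_contra hne
  have := separated N c c' hN hne
  rw [h, D_self] at this
  omega

theorem survival_le : survival LG ≤ 6 := by
  classical
  refine iSup₂_le ?_
  rintro n ⟨_, d, hd⟩
  by_contra hcon
  have hn : 7 ≤ n := by
    by_contra h
    apply hcon
    have : n ≤ 6 := by omega
    exact_mod_cast this
  set N : ℤ := (d : ℤ) + 3 with hN
  have hN3 : 3 ≤ N := by omega
  set T : Finset Vtx := (Finset.Icc (-3 : ℤ) ((n : ℤ) - 4)).image (P N) with hT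
  have hcard : T.card = n := by
    rw [hT, card_image_of_injective _ (P_inj N hN3), Int.card_Icc]
    omega
  have hsep : T ∈ Sep LG d n := by
    refine ⟨hcard.ge, ?_⟩
    intro v hv w hw hvw
    rw [hT, mem_image] at hv hw
    obtain ⟨c, _, rfl⟩ := hv
    obtain ⟨c', _, rfl⟩ := hw
    have hcc : c ≠ c' := fun h => hvw (by rw [h])
    have h1 := separated N c c' hN3 hcc
    rw [← dist_eq] at h1
    omega
  have hP : ∀ c ∈ Finset.Icc (-3 : ℤ) 3, P N c ∈ T := by
    intro c hc
    rw [hT, mem_image]
    rw [mem_Icc] at hc
    exact ⟨c, by rw [mem_Icc]; omega, rfl⟩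
  have hfin : (cell LG T (P N 0)).Finite := by
    rw [cell_eq]
    exact (cell_finite N hN3).subset fun u hu c hc => hu _ (hP c hc)
  have h0 : P N 0 ∈ T := hP 0 (by simp)
  have hle := hd T hsep
  have hlt : infCount LG T < T.card := by
    unfold infCount
    apply card_lt_card
    rw [filter_ssubset]
    exact ⟨P N 0, h0, fun h => h hfin⟩
  omega

theorem unrestricted : UnrestrictedCount LG ⊤ := by
  unfold UnrestrictedCount
  rw [ENat.tendsto_nhds_top_iff_natCast_lt]
  intro k
  filter_upwards [eventually_gt_atTop (k + k ^ 3)] with n hn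
  have hne : {k | ∃ T : Finset Vtx, T.card = n ∧ infCount LG T = k}.Nonempty := by
    have := infinite_vtx
    obtain ⟨T, hT⟩ := Infinite.exists_subset_card_eq Vtx n
    exact ⟨_, T, hT, rfl⟩
  obtain ⟨T, hT, hI⟩ := Nat.sInf_mem hne
  have h1 := card_le T
  have h2 : infCount LG T = minCount LG n := hI
  rw [hT, h2] at h1
  have : k < minCount LG n := by
    by_contra h
    have h3 : minCount LG n ≤ k := by omega
    have h4 : minCount LG n ^ 3 ≤ k ^ 3 := Nat.pow_le_pow_left h3 3
    omega
  exact_mod_cast this

/-- The lamplighter graph `LG` is infinite, connected, locally finite and vertex-transitive, its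
survival number is at most `6`, every finite set `T` of its vertices has at most `I(T) + I(T)^3`
elements, and its unrestricted count is infinite. So it is not true that `t(G) = s(G)` for every
infinite connected locally finite vertex-transitive graph `G`. -/
theorem result :
    (Admissible LG ∧ survival LG ≤ 6 ∧
      (∀ T : Finset Vtx, T.card ≤ infCount LG T + infCount LG T ^ 3) ∧
      UnrestrictedCount LG ⊤) ∧
    ¬ ∀ (W : Type) (G : SimpleGraph W), Admissible G →
      ∀ t : ℕ∞, UnrestrictedCount G t → t = survival G := by
  refine ⟨⟨admissible, survival_le, card_le, unrestricted⟩, fun h => ?_⟩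
  have h1 := h Vtx LG admissible ⊤ unrestricted
  have h2 := survival_le
  rw [← h1] at h2
  exact absurd h2 (by decide)

end Pool.Agent.Results.MP_785f4e_co.LamplighterVoronoi
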